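import Pool.Agent.Helper95.RP.St

/-!
# Project RP (MP_e0fa86_co), module UB: union bound for independent choices
-/

namespace Pool.Agent.Helper13.RP

open Pool.Agent.Helper95.RP Finset
open scoped Classical

private theorem badCard {ι α : Type} [Fintype ι] (Om : ι → Finset α) (J : Finset ι) (hit : ι → α → Prop) (K r : ℕ)
    (hK : 1 ≤ K) (hO : ∀ i, (Om i).Nonempty ∧ (Om i).card ≤ K) (hr : r ≤ J.card)
    (hh : ∀ i ∈ J, ∃ a ∈ Om i, hit i a) :
    (((Fintype.piFinset Om).filter (fun w => ∀ i ∈ J, ¬ hit i (w i))).card : ℝ)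
      ≤ ((Fintype.piFinset Om).card : ℝ) * (1 - 1 / (K : ℝ)) ^ r := by
  have hK0 : (0 : ℝ) < K := by exact_mod_cast hK
  have hK1 : (1 : ℝ) ≤ K := by exact_mod_cast hK
  have hq0 : 0 ≤ 1 - 1 / (K : ℝ) := by
    have : 1 / (K : ℝ) ≤ 1 := by rw [div_le_one hK0]; exact hK1
    linarith
  have hq1 : 1 - 1 / (K : ℝ) ≤ 1 := by
    have : 0 ≤ 1 / (K : ℝ) := by positivity
    linarith
  have e : (Fintype.piFinset Om).filter (fun w => ∀ i ∈ J, ¬ hit i (w i))
      = Fintype.piFinset (fun i => if i ∈ J then (Om i).filter (fun a => ¬ hit i a) else Om i) := by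
    ext w
    simp only [mem_filter, Fintype.mem_piFinset]
    constructor
    · rintro ⟨h1, h2⟩ i
      by_cases hi : i ∈ J
      · rw [if_pos hi, mem_filter]
        exact ⟨h1 i, h2 i hi⟩
      · rw [if_neg hi]
        exact h1 i
    · intro h
      refine ⟨fun i => ?_, fun i hi => ?_⟩
      · have := h i
        by_cases hi : i ∈ J
        · rw [if_pos hi, mem_filter] at this
          exact this.1
        · rw [if_neg hi] at this
          exact this
      · have := h i
        rw [if_pos hi, mem_filter] at this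
        exact this.2
  rw [e, Fintype.card_piFinset, Fintype.card_piFinset]
  push_cast
  have h1 : ∀ i : ι, (((if i ∈ J then (Om i).filter (fun a => ¬ hit i a) else Om i) : Finset α).card : ℝ)
      ≤ ((Om i).card : ℝ) * (if i ∈ J then (1 - 1 / (K : ℝ)) else 1) := by
    intro i
    by_cases hi : i ∈ J
    · rw [if_pos hi, if_pos hi]
      obtain ⟨a, ha, hita⟩ := hh i hi
      have h2 : ((Om i).filter (fun a => ¬ hit i a)).card < (Om i).card := by
        refine card_lt_card ⟨filter_subset _ _, fun hsub => ?_⟩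
        have := hsub ha
        rw [mem_filter] at this
        exact this.2 hita
      have h3 : (((Om i).filter (fun a => ¬ hit i a)).card : ℝ) + 1 ≤ ((Om i).card : ℝ) := by exact_mod_cast h2
      have h4 : ((Om i).card : ℝ) ≤ K := by exact_mod_cast (hO i).2
      have h5 : ((Om i).card : ℝ) * (1 / (K : ℝ)) ≤ 1 := by
        rw [mul_one_div, div_le_one hK0]
        exact h4
      rw [mul_sub, mul_one]
      linarith
    · rw [if_neg hi, if_neg hi, mul_one]
  calc (∏ i : ι, (((if i ∈ J then (Om i).filter (fun a => ¬ hit i a) else Om i) : Finset α).card : ℝ))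
      ≤ ∏ i : ι, (((Om i).card : ℝ) * (if i ∈ J then (1 - 1 / (K : ℝ)) else 1)) :=
        prod_le_prod (fun i _ => by positivity) (fun i _ => h1 i)
    _ = (∏ i : ι, ((Om i).card : ℝ)) * (1 - 1 / (K : ℝ)) ^ J.card := by
        rw [prod_mul_distrib, prod_ite_mem, univ_inter, prod_const]
    _ ≤ (∏ i : ι, ((Om i).card : ℝ)) * (1 - 1 / (K : ℝ)) ^ r :=
        mul_le_mul_of_nonneg_left (pow_le_pow_of_le_one hq0 hq1 hr) (prod_nonneg (fun i _ => by positivity))

/-- **UB**. -/
theorem hUB : UB := by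
  intro ι α τ _ Om X I hit K r hK hO hI hlt
  set P := Fintype.piFinset Om with hP
  have hPpos : 0 < P.card := by
    rw [hP, Fintype.card_piFinset]
    exact prod_pos (fun i _ => card_pos.2 (hO i).1)
  have hbad : ∀ T ∈ X, ((P.filter (fun w => ∀ i ∈ I T, ¬ hit T i (w i))).card : ℝ)
      ≤ (P.card : ℝ) * (1 - 1 / (K : ℝ)) ^ r := fun T hT =>
    badCard Om (I T) (hit T) K r hK hO (hI T hT).1 (hI T hT).2
  have hsum : ((X.biUnion (fun T => P.filter (fun w => ∀ i ∈ I T, ¬ hit T i (w i)))).card : ℝ) < P.card := by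
    calc ((X.biUnion (fun T => P.filter (fun w => ∀ i ∈ I T, ¬ hit T i (w i)))).card : ℝ)
        ≤ ∑ T ∈ X, ((P.filter (fun w => ∀ i ∈ I T, ¬ hit T i (w i))).card : ℝ) := by
          exact_mod_cast card_biUnion_le
      _ ≤ ∑ _T ∈ X, (P.card : ℝ) * (1 - 1 / (K : ℝ)) ^ r := sum_le_sum hbad
      _ = (P.card : ℝ) * ((X.card : ℝ) * (1 - 1 / (K : ℝ)) ^ r) := by
          rw [sum_const, nsmul_eq_mul]; ring
      _ < (P.card : ℝ) * 1 := by
          have : (0 : ℝ) < P.card := by exact_mod_cast hPpos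
          exact mul_lt_mul_of_pos_left hlt this
      _ = P.card := mul_one _
  have hlt' : (X.biUnion (fun T => P.filter (fun w => ∀ i ∈ I T, ¬ hit T i (w i)))).card < P.card := by
    exact_mod_cast hsum
  obtain ⟨w, hw, hw2⟩ := exists_mem_notMem_of_card_lt_card hlt'
  refine ⟨w, fun i => (Fintype.mem_piFinset.1 hw) i, fun T hT => ?_⟩
  by_contra hcon
  push Not at hcon
  exact hw2 (mem_biUnion.2 ⟨T, hT, mem_filter.2 ⟨hw, hcon⟩⟩)

end Pool.Agent.Helper13.RP
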